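import Mathlib
import Pool.Agent.Y647.RG.XRep
import Pool.Agent.Y530.TM.Defs

/-!
# Implied nonedges, when the rank of the circuit is attained by a partition
-/

set_option autoImplicit false
set_option linter.unusedSectionVars false

namespace Pool.Agent.Y647.TM.Imp

open Matrix Finset Pool.Agent.W824.BJ Pool.Agent.H789R5 Pool.Agent.H283R2.DR Pool.Agent.Y647.RG

section gen

variable {V : Type} [Fintype V] [DecidableEq V] {C : Type} [Fintype C] [DecidableEq C]

/-- An edge whose deletion does not change the rank lies in a set of at least five vertices which is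
complete in the closure, if the rank is attained by a two-fold cover. -/
theorem implied_gen {G₀ H : SimpleGraph V} {F0 : Finset (Sym2 V)} {Y0 : C → Finset V}
    (k1 : TwoFold Y0) (k2 : Covers Y0 (H.deleteEdges (↑F0 : Set (Sym2 V))))
    (k4 : 2 * genRank 3 H + ∑ q ∈ (univ : Finset C).offDiag, rho (Y0 q.1 ∩ Y0 q.2).card =
      2 * F0.card + 2 * ∑ c, rho (Y0 c).card) {u v : V} (huv : H.Adj u v)
    (h0 : ∀ x y, G₀.Adj x y → H.Adj x y ∧ s(x, y) ≠ s(u, v))
    (hr : genRank 3 H ≤ genRank 3 G₀) :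
    ∃ A : Finset V, 5 ≤ A.card ∧ u ∈ A ∧ v ∈ A ∧ ∀ x ∈ A, ∀ y ∈ A,
      genRank 3 (H ⊔ SimpleGraph.edge x y) ≤ genRank 3 H := by
  classical
  set r := genRank 3 H with hrr
  have hex : ∃ n, ∃ (F : Finset (Sym2 V)) (T : Finset C) (Y : C → Finset V),
      FG H r F T Y ∧ T.card = n := by
    refine ⟨_, F0, univ, Y0, ⟨k1, ?_, k4.ge⟩, rfl⟩
    intro x y hxy
    by_cases h : s(x, y) ∈ F0
    · exact Or.inl h
    · obtain ⟨c, hc⟩ := k2 x y (by
        rw [SimpleGraph.deleteEdges_adj]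
        exact ⟨hxy, fun h' => h (by exact_mod_cast h')⟩)
      exact Or.inr ⟨c, Finset.mem_univ _, hc⟩
  obtain ⟨F, T, Y, hB, hTn⟩ := Nat.find_spec hex
  have hmin : ∀ (F' : Finset (Sym2 V)) (T' : Finset C) (Y' : C → Finset V), FG H r F' T' Y' →
      T.card ≤ T'.card := fun F' T' Y' h => hTn ▸ Nat.find_min' hex ⟨F', T', Y', h, rfl⟩
  have hsz : ∀ x ∈ T, 5 ≤ (Y x).card := by
    intro x hx
    by_contra hn
    obtain ⟨F', hF'⟩ := fg_remove hB hx (by omega)
    have g1 := hmin _ _ _ hF'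
    rw [Finset.card_erase_of_mem hx] at g1
    have := Finset.card_pos.2 ⟨x, hx⟩
    omega
  obtain ⟨g0, g1, g3⟩ := hB
  have hcov : ∃ c ∈ T, u ∈ Y c ∧ v ∈ Y c := by
    by_contra hno
    have hF : s(u, v) ∈ F := (g1 u v huv).resolve_right hno
    have h1 := upperT (G := G₀) (F := F.erase s(u, v)) g0 (by
      intro x y hxy
      obtain ⟨h2, h3⟩ := h0 x y hxy
      rcases g1 x y h2 with h | h
      · exact Or.inl (Finset.mem_erase.2 ⟨h3, h⟩)
      · exact Or.inr h)
    have h2 := Finset.card_erase_of_mem hF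
    have h3 := Finset.card_pos.2 ⟨_, hF⟩
    omega
  obtain ⟨c, hcT, hu, hv⟩ := hcov
  refine ⟨Y c, hsz c hcT, hu, hv, ?_⟩
  intro x hx y hy
  have h1 := upperT (G := H ⊔ SimpleGraph.edge x y) (F := F) g0 (by
    intro a b hab
    rw [SimpleGraph.sup_adj, SimpleGraph.edge_adj] at hab
    rcases hab with h | ⟨⟨rfl, rfl⟩ | ⟨rfl, rfl⟩, -⟩
    · exact g1 a b h
    · exact Or.inr ⟨c, hcT, hx, hy⟩
    · exact Or.inr ⟨c, hcT, hy, hx⟩)
  omega

end gen

/-- The closure `CL(G)` of `G` in the generic three-dimensional rigidity matroid: `x` and `y` are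
adjacent in it when adding the edge `xy` to `G` does not change the generic rank. -/
noncomputable def CL {V : Type} [Fintype V] (G : SimpleGraph V) : SimpleGraph V where
  Adj x y := x ≠ y ∧ genRank 3 (G ⊔ SimpleGraph.edge x y) = genRank 3 G
  symm := ⟨fun x y h => ⟨h.1.symm, by rw [SimpleGraph.edge_comm]; exact h.2⟩⟩
  loopless := ⟨fun _ h => h.1 rfl⟩

open Pool.Agent.Y530.TM (cross) in
/-- implied nonedges, when the rank of the circuit is attained by a partition -/
theorem t (V C : Type) [Fintype V] [Fintype C] (G G₀ : SimpleGraph V) (u v : V) (h₀ : G₀ ≤ G)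
    (hf : ¬ G.Adj u v) (himp : (CL G₀).Adj u v) (γ : V → C)
    (hval : genRank 3 (G₀ ⊔ SimpleGraph.edge u v) =
      Pool.Agent.Y530.TM.val (G₀ ⊔ SimpleGraph.edge u v) γ) :
    ∃ A : Finset V, 5 ≤ A.card ∧ u ∈ A ∧ v ∈ A ∧
      ∀ x ∈ A, ∀ y ∈ A, x ≠ y → (CL G₀).Adj x y ∧ (CL G).Adj x y := by
  classical
  obtain ⟨huv, himp⟩ := himp
  have hYm : ∀ c w, w ∈ (univ.filter fun w => γ w = c) ↔ γ w = c := fun c w => by simp
  set Y : C → Finset V := fun c => univ.filter fun w => γ w = c with hY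
  have hYn : ∀ c, {w | γ w = c}.ncard = (Y c).card := by
    intro c
    rw [← Set.ncard_coe_finset]
    congr 1
    ext w
    simp [Y]
  set F : Finset (Sym2 V) := (cross (G₀ ⊔ SimpleGraph.edge u v) γ).toFinset with hF
  have hFm : ∀ z, z ∈ F ↔ z ∈ cross (G₀ ⊔ SimpleGraph.edge u v) γ := fun _ => Set.mem_toFinset
  have hFc : (cross (G₀ ⊔ SimpleGraph.edge u v) γ).ncard = F.card := Set.ncard_eq_toFinset_card' _
  have hYY : ∀ c c', c ≠ c' → Y c ∩ Y c' = ∅ := by
    intro c c' h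
    rw [Finset.eq_empty_iff_forall_notMem]
    intro w hv
    rw [Finset.mem_inter, hYm, hYm] at hv
    exact h (hv.1.symm.trans hv.2)
  have g1 : TwoFold Y := by
    intro w
    have : (univ.filter fun c => w ∈ Y c) ⊆ {γ w} := by
      intro c hc
      rw [Finset.mem_filter, hYm] at hc
      exact Finset.mem_singleton.2 hc.2.symm
    exact (Finset.card_le_card this).trans (by simp)
  have hoff : ∑ q ∈ (univ : Finset C).offDiag,
      Pool.Agent.W824.BJ.rho (Y q.1 ∩ Y q.2).card = 0 := by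
    apply Finset.sum_eq_zero
    intro q hq
    rw [Finset.mem_offDiag] at hq
    rw [hYY _ _ hq.2.2, Finset.card_empty]
    unfold Pool.Agent.W824.BJ.rho
    simp
  have g2 : Covers Y ((G₀ ⊔ SimpleGraph.edge u v).deleteEdges (↑F : Set (Sym2 V))) := by
    intro x y hxy
    rw [SimpleGraph.deleteEdges_adj, Finset.mem_coe] at hxy
    refine ⟨γ x, (hYm _ _).2 rfl, (hYm _ _).2 ?_⟩
    by_contra h
    exact hxy.2 ((hFm _).2 ⟨x, y, hxy.1, Ne.symm h, rfl⟩)
  have hr : genRank 3 (G₀ ⊔ SimpleGraph.edge u v) = F.card + ∑ c, Pool.Agent.W824.BJ.rho (Y c).card := by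
    rw [hval]
    unfold Pool.Agent.Y530.TM.val
    rw [hFc, add_comm]
    congr 1
    apply Finset.sum_congr rfl
    intro c _
    rw [hYn]
    rfl
  obtain ⟨p, hp⟩ := exists_mg V 3
  set H := G₀ ⊔ SimpleGraph.edge u v with hH
  have r₀ := genRank_add hp G₀
  have rH := genRank_add hp H
  have hle : G₀ ≤ H := le_sup_left
  obtain ⟨A, hA5, huA, hvA, hA⟩ := implied_gen (G₀ := G₀) (H := H) g1 g2 (by rw [hoff]; omega)
    (u := u) (v := v) (by
      rw [hH, SimpleGraph.sup_adj, SimpleGraph.edge_adj]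
      exact Or.inr ⟨Or.inl ⟨rfl, rfl⟩, huv⟩) (by
      intro x y hxy
      refine ⟨hle hxy, ?_⟩
      intro h
      rcases Sym2.eq_iff.1 h with ⟨rfl, rfl⟩ | ⟨rfl, rfl⟩
      · exact hf (h₀ hxy)
      · exact hf (h₀ hxy).symm) himp.le
  have hmot : Mot G₀ p = Mot H p := by
    refine (Submodule.eq_of_le_of_finrank_le (mot_anti hle p) ?_).symm
    show mo G₀ p ≤ mo H p
    omega
  have hcl : ∀ x ∈ A, ∀ y ∈ A, x ≠ y → ∀ q ∈ Mot G₀ p,
      (p x - p y) ⬝ᵥ (q x - q y) = 0 := by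
    intro x hx y hy hxy q hq
    have rC := genRank_add hp (H ⊔ SimpleGraph.edge x y)
    have h1 := hA x hx y hy
    have h2 : Mot H p = Mot (H ⊔ SimpleGraph.edge x y) p := by
      refine (Submodule.eq_of_le_of_finrank_le (mot_anti le_sup_left p) ?_).symm
      show mo H p ≤ mo (H ⊔ SimpleGraph.edge x y) p
      omega
    rw [hmot, h2, mem_mot] at hq
    exact hq x y (by
      rw [SimpleGraph.sup_adj, SimpleGraph.edge_adj]
      exact Or.inr ⟨Or.inl ⟨rfl, rfl⟩, hxy⟩)
  have key : ∀ K : SimpleGraph V, G₀ ≤ K → ∀ x ∈ A, ∀ y ∈ A, x ≠ y → (CL K).Adj x y := by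
    intro K hK x hx y hy hxy
    refine ⟨hxy, ?_⟩
    have rG := genRank_add hp K
    have rG' := genRank_add hp (K ⊔ SimpleGraph.edge x y)
    have h1 : mo K p ≤ mo (K ⊔ SimpleGraph.edge x y) p := by
      apply Submodule.finrank_mono
      intro q hq
      have hq₀ : q ∈ Mot G₀ p := mot_anti hK p hq
      rw [mem_mot] at hq ⊢
      intro a b hab
      rw [SimpleGraph.sup_adj, SimpleGraph.edge_adj] at hab
      rcases hab with h | ⟨⟨rfl, rfl⟩ | ⟨rfl, rfl⟩, -⟩
      · exact hq a b h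
      · exact hcl _ hx _ hy hxy q hq₀
      · exact hcl _ hy _ hx hxy.symm q hq₀
    have h2 : mo (K ⊔ SimpleGraph.edge x y) p ≤ mo K p := mo_anti le_sup_left p
    omega
  exact ⟨A, hA5, huA, hvA, fun x hx y hy hxy =>
    ⟨key G₀ le_rfl x hx y hy hxy, key G h₀ x hx y hy hxy⟩⟩

end Pool.Agent.Y647.TM.Imp
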