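import Mathlib
import Pool.Agent.Y647.RG.Dress

/-!
# The Dress conjecture for graphs whose rank is attained by a partition
-/

set_option autoImplicit false
set_option linter.unusedSectionVars false

namespace Pool.Agent.Y647.TM.Drs

open Matrix Finset Pool.Agent.W824.BJ Pool.Agent.H789R5 Pool.Agent.H283R2.DR Pool.Agent.Y647.RG

variable {V : Type} [Fintype V] [DecidableEq V] {p : V → Fin 3 → ℝ} {G : SimpleGraph V}
variable {C : Type} [Fintype C] [DecidableEq C]

theorem dress_gen (hp : MG p) {F : Finset (Sym2 V)} {Y : C → Finset V} (h1 : TwoFold Y)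
    (h2 : Covers Y (G.deleteEdges (↑F : Set (Sym2 V))))
    (h3 : ∀ Z : Finset V, G.IsClique (Z : Set V) → 5 ≤ Z.card → ∃ c, Z ⊆ Y c)
    (h4 : 2 * genRank 3 G + ∑ q ∈ (univ : Finset C).offDiag, rho (Y q.1 ∩ Y q.2).card =
      2 * F.card + 2 * ∑ c, rho (Y c).card)
    (hint0 : ∀ c c', c ≠ c' → (Y c ∩ Y c').card ≤ 2)
    (hcl : ∀ u v, u ≠ v → ¬ G.Adj u v → genRank 3 G < genRank 3 (G ⊔ SimpleGraph.edge u v))
    [DecidableRel G.Adj] :
    (∀ v, ((mcs G).filter fun X => v ∈ X).card ≤ 2) ∧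
    (∀ X ∈ mcs G, ∀ X' ∈ mcs G, X ≠ X' → (X ∩ X').card ≤ 2) ∧
    2 * genRank 3 G + ∑ q ∈ (mcs G).offDiag, rho (q.1 ∩ q.2).card =
      2 * (G.edgeFinset.filter fun e => ∀ X ∈ mcs G, e ∉ pr X).card +
        2 * ∑ X ∈ mcs G, rho X.card := by
  classical
  -- the members are cliques
  have hY : ∀ c, G.IsClique (Y c : Set V) := by
    intro c u hu v hv huv
    by_contra hn
    have e1 := hcl u v huv hn
    have e2 := upperF h1 (G := G ⊔ SimpleGraph.edge u v) (F := F) (by
      intro a b hab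
      rw [SimpleGraph.deleteEdges_adj, SimpleGraph.sup_adj, SimpleGraph.edge_adj] at hab
      rcases hab.1 with h | ⟨⟨rfl, rfl⟩ | ⟨rfl, rfl⟩, -⟩
      · exact h2 a b (by rw [SimpleGraph.deleteEdges_adj]; exact ⟨h, hab.2⟩)
      · exact ⟨c, hu, hv⟩
      · exact ⟨c, hv, hu⟩)
    omega
  have hmem : ∀ X, MC G X → ∃ c, Y c = X := by
    intro X hX
    obtain ⟨c, hc'⟩ := h3 X hX.2.1 hX.1
    exact ⟨c, hX.2.2 _ (hY c) hc'⟩
  have hint : ∀ X ∈ mcs G, ∀ X' ∈ mcs G, X ≠ X' → (X ∩ X').card ≤ 2 := by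
    intro X hX X' hX' hne
    rw [mem_mcs] at hX hX'
    obtain ⟨c, rfl⟩ := hmem X hX
    obtain ⟨c', rfl⟩ := hmem X' hX'
    exact hint0 c c' (fun h => hne (by rw [h]))
  -- a minimal choice
  have hstart : BB G Y (genRank 3 G) univ F := by
    refine ⟨?_, ?_, ?_⟩
    · intro u v huv
      by_cases h : s(u, v) ∈ F
      · exact Or.inl h
      · obtain ⟨c, hc'⟩ := h2 u v (by
          rw [SimpleGraph.deleteEdges_adj]
          exact ⟨huv, fun h' => h (by exact_mod_cast h')⟩)
        exact Or.inr ⟨c, Finset.mem_univ _, hc'⟩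
    · intro X hX
      obtain ⟨c, hc'⟩ := hmem X hX
      exact ⟨c, Finset.mem_univ _, hc'⟩
    · exact h4.ge
  obtain ⟨S, hS, hmin⟩ := Finset.exists_min_image
    (univ.filter fun S : Finset C => ∃ F', BB G Y (genRank 3 G) S F') Finset.card
    ⟨univ, Finset.mem_filter.2 ⟨Finset.mem_univ _, F, hstart⟩⟩
  rw [Finset.mem_filter] at hS
  obtain ⟨-, F', hB⟩ := hS
  have hno : ∀ d ∈ S, ¬ ((∀ X, MC G X → ∃ c ∈ S.erase d, Y c = X) ∧
      ((Y d).card ≤ 4 ∨ ∃ c ∈ S.erase d, Y d ⊆ Y c)) := by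
    rintro d hd ⟨k1, k2⟩
    obtain ⟨F'', hF''⟩ := remove h1 hB hd k1 k2
    have := hmin (S.erase d) (Finset.mem_filter.2 ⟨Finset.mem_univ _, F'', hF''⟩)
    rw [Finset.card_erase_of_mem hd] at this
    have := Finset.card_pos.2 ⟨d, hd⟩
    omega
  have hall : ∀ d ∈ S, MC G (Y d) := by
    intro d hd
    by_contra hn
    apply hno d hd
    have k1 : ∀ X, MC G X → ∃ c ∈ S.erase d, Y c = X := by
      intro X hX
      obtain ⟨c, hc', rfl⟩ := hB.2.1 X hX
      exact ⟨c, Finset.mem_erase.2 ⟨fun h => hn (h ▸ hX), hc'⟩, rfl⟩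
    refine ⟨k1, ?_⟩
    by_cases h5 : (Y d).card ≤ 4
    · exact Or.inl h5
    · right
      obtain ⟨X, hX, hs⟩ := clique_extend (hY d) (by omega)
      obtain ⟨c, hc', rfl⟩ := k1 X hX
      exact ⟨c, hc', hs⟩
  have hinj : Set.InjOn Y (S : Set C) := by
    intro a ha b hb hab
    by_contra hne
    rw [Finset.mem_coe] at ha hb
    apply hno a ha
    refine ⟨?_, Or.inr ⟨b, Finset.mem_erase.2 ⟨Ne.symm hne, hb⟩, hab.le⟩⟩
    intro X hX
    obtain ⟨c, hc', hcX⟩ := hB.2.1 X hX
    by_cases hca : c = a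
    · exact ⟨b, Finset.mem_erase.2 ⟨Ne.symm hne, hb⟩, by rw [← hab, ← hca, hcX]⟩
    · exact ⟨c, Finset.mem_erase.2 ⟨hca, hc'⟩, hcX⟩
  have himg : mcs G = S.image Y := by
    ext X
    rw [mem_mcs, Finset.mem_image]
    constructor
    · intro hX
      exact hB.2.1 X hX
    · rintro ⟨c, hc', rfl⟩
      exact hall c hc'
  have htwo : ∀ v, ((mcs G).filter fun X => v ∈ X).card ≤ 2 := by
    intro v
    rw [himg]
    have e1 : (S.image Y).filter (fun X => v ∈ X) ⊆ (univ.filter fun c => v ∈ Y c).image Y := by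
      intro X hX
      rw [Finset.mem_filter, Finset.mem_image] at hX
      obtain ⟨⟨c, hc', rfl⟩, hv⟩ := hX
      exact Finset.mem_image_of_mem Y (Finset.mem_filter.2 ⟨Finset.mem_univ _, hv⟩)
    exact (Finset.card_le_card e1).trans (Finset.card_image_le.trans (h1 v))
  refine ⟨htwo, hint, ?_⟩
  set F0 := G.edgeFinset.filter fun e => ∀ X ∈ mcs G, e ∉ pr X with hF0
  apply le_antisymm
  · -- the upper bound
    have u1 : TwoFold (fun X : mcs G => X.1) := by
      intro v
      refine (Finset.card_le_card_of_injOn (t := (mcs G).filter fun X => v ∈ X)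
        (fun X => X.1) ?_ ?_).trans (htwo v)
      · intro X hX
        rw [Finset.mem_coe, Finset.mem_filter] at hX
        rw [Finset.mem_coe, Finset.mem_filter]
        exact ⟨X.2, hX.2⟩
      · intro X _ X' _ h
        exact Subtype.ext h
    have u2 := upperF u1 (G := G) (F := F0) (by
      intro a b hab
      rw [SimpleGraph.deleteEdges_adj] at hab
      by_contra hn
      apply hab.2
      rw [Finset.mem_coe, hF0, Finset.mem_filter, SimpleGraph.mem_edgeFinset]
      refine ⟨hab.1, ?_⟩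
      intro X hX hm
      rw [mem_pr] at hm
      exact hn ⟨⟨X, hX⟩, hm.1, hm.2.1⟩)
    have u3 : ∑ c : mcs G, rho (c : Finset V).card = ∑ X ∈ mcs G, rho X.card :=
      Finset.sum_coe_sort (mcs G) (fun X => rho X.card)
    have u4 : ∑ q ∈ (univ : Finset (mcs G)).offDiag, rho (q.1.1 ∩ q.2.1).card =
        ∑ q ∈ (mcs G).offDiag, rho (q.1 ∩ q.2).card := by
      refine Finset.sum_bij (fun q _ => (q.1.1, q.2.1)) ?_ ?_ ?_ ?_
      · intro q hq
        rw [Finset.mem_offDiag] at hq ⊢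
        exact ⟨q.1.2, q.2.2, fun h => hq.2.2 (Subtype.ext h)⟩
      · intro q _ q' _ h
        exact Prod.ext (Subtype.ext (congrArg Prod.fst h)) (Subtype.ext (congrArg Prod.snd h))
      · rintro ⟨X, X'⟩ hq
        rw [Finset.mem_offDiag] at hq
        refine ⟨(⟨X, hq.1⟩, ⟨X', hq.2.1⟩), ?_, rfl⟩
        rw [Finset.mem_offDiag]
        exact ⟨Finset.mem_univ _, Finset.mem_univ _, fun h => hq.2.2 (congrArg Subtype.val h)⟩
      · intro q _
        rfl
    rw [u4, u3] at u2
    exact u2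
  · -- the lower bound
    have e1 : ∑ X ∈ mcs G, rho X.card = ∑ c ∈ S, rho (Y c).card := by
      rw [himg, Finset.sum_image hinj]
    have e2 : ∑ q ∈ (mcs G).offDiag, rho (q.1 ∩ q.2).card =
        ∑ q ∈ S.offDiag, rho (Y q.1 ∩ Y q.2).card := by
      symm
      refine Finset.sum_bij (fun q _ => (Y q.1, Y q.2)) ?_ ?_ ?_ ?_
      · intro q hq
        rw [Finset.mem_offDiag] at hq ⊢
        rw [himg]
        exact ⟨Finset.mem_image_of_mem Y hq.1, Finset.mem_image_of_mem Y hq.2.1,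
          fun h => hq.2.2 (hinj hq.1 hq.2.1 h)⟩
      · intro q hq q' hq' h
        rw [Finset.mem_offDiag] at hq hq'
        exact Prod.ext (hinj hq.1 hq'.1 (congrArg Prod.fst h))
          (hinj hq.2.1 hq'.2.1 (congrArg Prod.snd h))
      · rintro ⟨X, X'⟩ hq
        rw [Finset.mem_offDiag, himg, Finset.mem_image, Finset.mem_image] at hq
        obtain ⟨⟨a, ha, ha'⟩, ⟨b, hb, hb'⟩, hne⟩ := hq
        refine ⟨(a, b), ?_, ?_⟩
        · rw [Finset.mem_offDiag]
          refine ⟨ha, hb, ?_⟩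
          intro hab
          have hab' : a = b := hab
          exact hne (ha'.symm.trans (hab' ▸ hb'))
        · show (Y a, Y b) = (X, X')
          rw [ha', hb']
      · intro q _
        rfl
    have e3 : F0 ⊆ F' := by
      intro e he
      rw [hF0, Finset.mem_filter] at he
      induction e using Sym2.ind with
      | _ a b =>
        have hab : G.Adj a b := by
          have := he.1
          rwa [SimpleGraph.mem_edgeFinset, SimpleGraph.mem_edgeSet] at this
        rcases hB.1 a b hab with h | ⟨c, hc', ha, hb⟩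
        · exact h
        · exfalso
          exact he.2 (Y c) (mem_mcs.2 (hall c hc')) (mem_pr.2 ⟨ha, hb, hab.ne⟩)
    have e4 := Finset.card_le_card e3
    have e5 := hB.2.2
    rw [e1, e2]
    omega



/-- an edge in a clique with at least five vertices is implied by the others -/
theorem clique_edge (hp : MG p) {X : Finset V} (hX : G.IsClique (X : Set V)) (h5 : 5 ≤ X.card)
    {u v : V} (hu : u ∈ X) (hv : v ∈ X) (huv : u ≠ v) :
    genRank 3 G ≤ genRank 3 (G.deleteEdges {s(u, v)}) := by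
  classical
  have r1 := genRank_add hp G
  have r2 := genRank_add hp (G.deleteEdges {s(u, v)})
  have hadj : ∀ a b, (G.deleteEdges {s(u, v)}).Adj a b ↔ G.Adj a b ∧ s(a, b) ≠ s(u, v) := by
    intro a b
    rw [SimpleGraph.deleteEdges_adj]
    rfl
  have hle : Mot (G.deleteEdges {s(u, v)}) p ≤ Mot G p := by
    intro q hq
    have hm := (mem_mot _ p q).1 hq
    have h1 := rigid_complete hp.toGen (G.deleteEdges {s(u, v)}) (X.erase u) (by
      intro a ha b hb hab
      rw [Finset.mem_erase] at ha hb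
      rw [hadj]
      refine ⟨hX ha.2 hb.2 hab, ?_⟩
      intro h
      rcases Sym2.eq_iff.1 h with ⟨h1, -⟩ | ⟨-, h1⟩
      · exact ha.1 h1
      · exact hb.1 h1) q (fun a _ b _ hab => hm a b hab)
    have h2 := rigid_complete hp.toGen (G.deleteEdges {s(u, v)}) (X.erase v) (by
      intro a ha b hb hab
      rw [Finset.mem_erase] at ha hb
      rw [hadj]
      refine ⟨hX ha.2 hb.2 hab, ?_⟩
      intro h
      rcases Sym2.eq_iff.1 h with ⟨-, h1⟩ | ⟨h1, -⟩
      · exact hb.1 h1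
      · exact ha.1 h1) q (fun a _ b _ hab => hm a b hab)
    obtain ⟨A, t, hA, ht⟩ := h1
    obtain ⟨A', t', hA', ht'⟩ := h2
    have ht1 : ∀ w ∈ X.erase u, q w = A *ᵥ p w + t := fun w hw => ht w (by exact_mod_cast hw)
    have ht2 : ∀ w ∈ X.erase v, q w = A' *ᵥ p w + t' := fun w hw => ht' w (by exact_mod_cast hw)
    obtain ⟨e1, e2⟩ := triv_unique hp.toGen (S := (X.erase u).erase v) (by
      rw [Finset.card_erase_of_mem (Finset.mem_erase.2 ⟨huv.symm, hv⟩),
        Finset.card_erase_of_mem hu]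
      omega) hA hA' (b := t) (b' := t') (by
      intro w hw
      rw [Finset.mem_erase, Finset.mem_erase] at hw
      rw [← ht1 w (Finset.mem_erase.2 ⟨hw.2.1, hw.2.2⟩),
        ← ht2 w (Finset.mem_erase.2 ⟨hw.1, hw.2.2⟩)])
    subst e1
    subst e2
    rw [mem_mot]
    have h0 : ∀ a b, a ∈ X → b ∈ X → (p a - p b) ⬝ᵥ (q a - q b) = 0 := by
      have ht3 : ∀ w ∈ X, q w = A *ᵥ p w + t := by
        intro w hw
        by_cases hwu : w = u
        · exact ht2 w (Finset.mem_erase.2 ⟨by rw [hwu]; exact huv, hw⟩)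
        · exact ht1 w (Finset.mem_erase.2 ⟨hwu, hw⟩)
      intro a b ha hb
      rw [ht3 a ha, ht3 b hb, add_sub_add_right_eq_sub, ← Matrix.mulVec_sub]
      exact skew_dot_self hA _
    intro a b hab
    by_cases h : s(a, b) = s(u, v)
    · rcases Sym2.eq_iff.1 h with ⟨rfl, rfl⟩ | ⟨rfl, rfl⟩
      · exact h0 _ _ hu hv
      · exact h0 _ _ hv hu
    · exact hm a b ((hadj a b).2 ⟨hab, h⟩)
  have h1 : mo (G.deleteEdges {s(u, v)}) p ≤ mo G p := Submodule.finrank_mono hle
  omega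

end Pool.Agent.Y647.TM.Drs
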