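import Mathlib
import Pool.Agent.Y647.TM.Drs1
import Pool.Agent.Y530.TM.Defs

/-!
# The Dress conjecture for graphs whose rank is attained by a partition
-/

set_option autoImplicit false
set_option linter.unusedSectionVars false

namespace Pool.Agent.Y647.TM.Drs

open Finset Pool.Agent.H789R5 Pool.Agent.H283R2.DR Pool.Agent.Y647.RG

open Pool.Agent.Y530.TM in
theorem t : S_DRS := by
  intro V C _ _ G γ hcl hval
  classical
  obtain ⟨p, hp⟩ := exists_mg V 3
  let Y : C → Finset V := fun c => univ.filter fun v => γ v = c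
  have hYm : ∀ c v, v ∈ Y c ↔ γ v = c := fun c v => by simp [Y]
  have hYn : ∀ c, {v | γ v = c}.ncard = (Y c).card := by
    intro c
    rw [← Set.ncard_coe_finset]
    congr 1
    ext v
    simp [Y]
  set F : Finset (Sym2 V) := (cross G γ).toFinset with hF
  have hFm : ∀ e, e ∈ F ↔ e ∈ cross G γ := fun e => Set.mem_toFinset
  have hFc : (cross G γ).ncard = F.card := Set.ncard_eq_toFinset_card' _
  have hYY : ∀ c c', c ≠ c' → Y c ∩ Y c' = ∅ := by
    intro c c' h
    rw [Finset.eq_empty_iff_forall_notMem]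
    intro v hv
    rw [Finset.mem_inter, hYm, hYm] at hv
    exact h (hv.1.symm.trans hv.2)
  have h1 : TwoFold Y := by
    intro v
    have : (univ.filter fun c => v ∈ Y c) ⊆ {γ v} := by
      intro c hc
      rw [Finset.mem_filter, hYm] at hc
      exact Finset.mem_singleton.2 hc.2.symm
    exact (Finset.card_le_card this).trans (by simp)
  have hoff : ∑ q ∈ (univ : Finset C).offDiag,
      Pool.Agent.W824.BJ.rho (Y q.1 ∩ Y q.2).card = 0 := by
    apply Finset.sum_eq_zero
    intro q hq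
    rw [Finset.mem_offDiag] at hq
    rw [hYY _ _ hq.2.2, Finset.card_empty]
    unfold Pool.Agent.W824.BJ.rho
    simp
  have hcross : ∀ a b, G.Adj a b → s(a, b) ∉ F → γ a = γ b := by
    intro a b hab hn
    by_contra h
    exact hn ((hFm _).2 ⟨a, b, hab, h, rfl⟩)
  have hcrossI : ∀ a b, s(a, b) ∈ F → γ a ≠ γ b := by
    intro a b h
    obtain ⟨x, y, -, hxy, he⟩ := (hFm _).1 h
    rcases Sym2.eq_iff.1 he with ⟨rfl, rfl⟩ | ⟨rfl, rfl⟩
    · exact hxy
    · exact hxy.symm
  have h2 : Covers Y (G.deleteEdges (↑F : Set (Sym2 V))) := by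
    intro a b hab
    rw [SimpleGraph.deleteEdges_adj, Finset.mem_coe] at hab
    exact ⟨γ a, (hYm _ _).2 rfl, (hYm _ _).2 (hcross a b hab.1 hab.2).symm⟩
  have hr : genRank 3 G = F.card + ∑ c, Pool.Agent.W824.BJ.rho (Y c).card := by
    rw [hval]
    unfold Pool.Agent.Y530.TM.val
    rw [hFc, add_comm]
    congr 1
    apply Finset.sum_congr rfl
    intro c _
    rw [hYn]
    rfl
  have h3 : ∀ Z : Finset V, G.IsClique (Z : Set V) → 5 ≤ Z.card → ∃ c, Z ⊆ Y c := by
    intro Z hZ h5
    by_contra hno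
    push Not at hno
    obtain ⟨u, hu⟩ := Finset.card_pos.1 (show 0 < Z.card by omega)
    obtain ⟨v, hv, hvn⟩ := Finset.not_subset.1 (hno (γ u))
    rw [hYm] at hvn
    have huv : u ≠ v := fun h => hvn (by rw [h])
    have hF' : s(u, v) ∈ F := (hFm _).2 ⟨u, v, hZ hu hv huv, Ne.symm hvn, rfl⟩
    have k1 := clique_edge hp hZ h5 hu hv huv
    have k2 := upperF h1 (G := G.deleteEdges {s(u, v)}) (F := F.erase s(u, v)) (by
      intro a b hab
      rw [SimpleGraph.deleteEdges_adj, SimpleGraph.deleteEdges_adj, Finset.mem_coe] at hab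
      apply h2 a b
      rw [SimpleGraph.deleteEdges_adj, Finset.mem_coe]
      refine ⟨hab.1.1, ?_⟩
      intro h
      exact hab.2 (Finset.mem_erase.2 ⟨hab.1.2, h⟩))
    have k3 := Finset.card_erase_of_mem hF'
    have k4 := Finset.card_pos.2 ⟨_, hF'⟩
    omega
  obtain ⟨h1, h2, h3⟩ := dress_gen hp h1 h2 h3 (by rw [hoff]; omega) (by
      intro c c' h
      rw [hYY c c' h]
      simp) (fun u v huv hn => by
    rw [hcl u v huv hn]
    exact Nat.lt_succ_self _)
  have hmc : ∀ X, X ∈ mcs G ↔ MaxClique5 G X := fun X => mem_mcs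
  have hset : (univ.filter fun X : Finset V => MaxClique5 G X) = mcs G := by
    ext X
    rw [Finset.mem_filter, hmc]
    exact ⟨fun h => h.2, fun h => ⟨Finset.mem_univ _, h⟩⟩
  have hpr : ∀ e ∈ G.edgeFinset, ∀ X : Finset V, e ∈ pr X ↔ ∀ w ∈ e, w ∈ X := by
    intro e he X
    induction e using Sym2.ind with
    | _ a b =>
      have hab : G.Adj a b := by
        rwa [SimpleGraph.mem_edgeFinset, SimpleGraph.mem_edgeSet] at he
      rw [mem_pr]
      constructor
      · rintro ⟨ha, hb, -⟩ w hw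
        rw [Sym2.mem_iff] at hw
        rcases hw with rfl | rfl
        · exact ha
        · exact hb
      · intro h
        exact ⟨h a (Sym2.mem_mk_left a b), h b (Sym2.mem_mk_right a b), hab.ne⟩
  have hdeg : ∀ e ∈ G.edgeFinset, degX G e = ((mcs G).filter fun X => e ∈ pr X).card := by
    intro e he
    unfold degX
    congr 1
    ext X
    rw [Finset.mem_filter, Finset.mem_filter, hmc, hpr e he]
    exact ⟨fun h => h.2, fun h => ⟨Finset.mem_univ _, h⟩⟩
  have hdeg2 : ∀ e ∈ G.edgeFinset, degX G e ≤ 2 := by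
    intro e he
    rw [hdeg e he]
    induction e using Sym2.ind with
    | _ a b =>
      refine (Finset.card_le_card ?_).trans (h1 a)
      intro X hX
      rw [Finset.mem_filter, mem_pr] at hX
      exact Finset.mem_filter.2 ⟨hX.1, hX.2.1⟩
  -- the edges in no clique
  have hF : (G.edgeFinset.filter fun e => degX G e = 0) =
      G.edgeFinset.filter fun e => ∀ X ∈ mcs G, e ∉ pr X := by
    apply Finset.filter_congr
    intro e he
    rw [hdeg e he, Finset.card_eq_zero, Finset.filter_eq_empty_iff]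
  -- the hinges
  have hH : ∑ q ∈ (mcs G).offDiag, Pool.Agent.W824.BJ.rho (q.1 ∩ q.2).card =
      ∑ e ∈ G.edgeFinset, 2 * (if 2 ≤ degX G e then degX G e - 1 else 0) := by
    have e1 : ∀ q ∈ (mcs G).offDiag, Pool.Agent.W824.BJ.rho (q.1 ∩ q.2).card =
        ∑ e ∈ G.edgeFinset, if e ∈ pr q.1 ∧ e ∈ pr q.2 then 1 else 0 := by
      intro q hq
      rw [Finset.mem_offDiag] at hq
      have h4 := h2 q.1 hq.1 q.2 hq.2.1 hq.2.2
      rw [rho_le4 (by omega), ← card_pr, ← Finset.card_filter]
      congr 1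
      ext e
      rw [Finset.mem_filter]
      induction e using Sym2.ind with
      | _ a b =>
        rw [mem_pr, mem_pr, mem_pr, Finset.mem_inter, Finset.mem_inter,
          SimpleGraph.mem_edgeFinset, SimpleGraph.mem_edgeSet]
        constructor
        · rintro ⟨ha, hb, hab⟩
          exact ⟨((hmc _).1 hq.1).2.1 ha.1 hb.1 hab, ⟨ha.1, hb.1, hab⟩, ha.2, hb.2, hab⟩
        · rintro ⟨-, ha, hb⟩
          exact ⟨⟨ha.1, hb.1⟩, ⟨ha.2.1, hb.2.1⟩, ha.2.2⟩
    rw [Finset.sum_congr rfl e1, Finset.sum_comm]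
    apply Finset.sum_congr rfl
    intro e he
    rw [← Finset.card_filter]
    have e2 : ((mcs G).offDiag.filter fun q => e ∈ pr q.1 ∧ e ∈ pr q.2) =
        ((mcs G).filter fun X => e ∈ pr X).offDiag := by
      ext q
      rw [Finset.mem_filter, Finset.mem_offDiag, Finset.mem_offDiag, Finset.mem_filter,
        Finset.mem_filter]
      tauto
    rw [e2, Finset.offDiag_card, ← hdeg e he]
    have e3 := hdeg2 e he
    interval_cases degX G e <;> simp
  have hR : ∀ X ∈ mcs G, ((Pool.Agent.W824.BJ.rho X.card : ℕ) : ℤ) = 3 * (X.card : ℤ) - 6 := by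
    intro X hX
    have h4 := ((hmc X).1 hX).1
    unfold Pool.Agent.W824.BJ.rho
    rw [if_neg (by omega), if_neg (by omega)]
    omega
  unfold cval
  rw [hset, hF]
  have e4 : (∑ X ∈ mcs G, (3 * (X.card : ℤ) - 6)) =
      ((∑ X ∈ mcs G, Pool.Agent.W824.BJ.rho X.card : ℕ) : ℤ) := by
    rw [Nat.cast_sum]
    exact Finset.sum_congr rfl fun X hX => (hR X hX).symm
  have e5 : (∑ e ∈ G.edgeFinset, if 2 ≤ degX G e then (degX G e : ℤ) - 1 else 0) =
      ((∑ e ∈ G.edgeFinset, (if 2 ≤ degX G e then degX G e - 1 else 0) : ℕ) : ℤ) := by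
    rw [Nat.cast_sum]
    apply Finset.sum_congr rfl
    intro e _
    split_ifs with h
    · omega
    · rfl
  rw [e4, e5]
  rw [hH, ← Finset.mul_sum] at h3
  have e6 : (G.edgeFinset.filter fun e => ∀ X ∈ mcs G, e ∉ pr X).card =
      (G.edgeFinset.filter fun e => ∀ X ∈ mcs G, e ∉ pr X).card := rfl
  omega

end Pool.Agent.Y647.TM.Drs
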